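import Mathlib

/-!
# The selfadjoint factor of a commuting H-polar decomposition is unique up to sign

Let `X = U A = A U = V B = B V` with `H`-unitary `U`, `V` and `H`-selfadjoint `A`, `B`.  All of
`U`, `V`, `A`, `B` commute with `X` and with its `H`-adjoint.  For an `H`-unitary matrix `M` which
commutes with these two matrices, the sum of the generalised eigenspaces for `ν` and `1 / conj ν` is
invariant and nondegenerate, so `M` has no other eigenvalues.  Let `W = U⁻¹ V`.  Then `W B = A`
and `D = (W - W⁻¹) B` satisfies `D V = - V D`; as `ν` and `-ν` are never both eigenvalues of `V`,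
`D = 0`, so `W ^ 2` is the identity on the range of `B`, and `W` cannot have both eigenvalues `1` and
`-1`.
-/

set_option autoImplicit false

namespace Pool.Agent.Results.MP_d7084b_al.UniqueUpToSign

open Matrix Module.End
open scoped ComplexOrder

variable {n : ℕ}

/-- The indefinite inner product `[x, y] = ⟨H x, y⟩`, where `⟨x, y⟩ = x* y`. -/
noncomputable def form (H : Matrix (Fin n) (Fin n) ℂ) (x y : Fin n → ℂ) : ℂ :=
  star (H *ᵥ x) ⬝ᵥ y

/-- The `H`-adjoint `H⁻¹ M* H` of `M`. -/
noncomputable def adj (H M : Matrix (Fin n) (Fin n) ℂ) : Matrix (Fin n) (Fin n) ℂ :=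
  H⁻¹ * Mᴴ * H

/-- The set of the matrices `A` for which there is an `H`-polar decomposition `X = U A` with
commuting factors: `A` is `H`-selfadjoint, `U` is `H`-unitary, and `U A = A U`. -/
def Factors (X H : Matrix (Fin n) (Fin n) ℂ) : Set (Matrix (Fin n) (Fin n) ℂ) :=
  {A | adj H A = A ∧ ∃ U : Matrix (Fin n) (Fin n) ℂ, adj H U * U = 1 ∧ X = U * A ∧ U * A = A * U}

/-- The restriction of the form to the subspace `W` is nondegenerate. -/
def Nondegenerate (H : Matrix (Fin n) (Fin n) ℂ) (W : Submodule ℂ (Fin n → ℂ)) : Prop :=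
  ∀ x ∈ W, (∀ y ∈ W, form H x y = 0) → x = 0

/-- The only nondegenerate subspaces invariant under `X` and its `H`-adjoint are the zero space and
the whole space. -/
def Indecomposable (X H : Matrix (Fin n) (Fin n) ℂ) : Prop :=
  ∀ W : Submodule ℂ (Fin n → ℂ), Nondegenerate H W → (∀ x ∈ W, X *ᵥ x ∈ W) →
    (∀ x ∈ W, adj H X *ᵥ x ∈ W) → W = ⊥ ∨ W = ⊤

theorem form_add_left (H : Matrix (Fin n) (Fin n) ℂ) (x x' y : Fin n → ℂ) :
    form H (x + x') y = form H x y + form H x' y := by
  simp [form, mulVec_add, add_dotProduct]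

theorem form_smul_left (H : Matrix (Fin n) (Fin n) ℂ) (c : ℂ) (x y : Fin n → ℂ) :
    form H (c • x) y = star c * form H x y := by
  simp [form, mulVec_smul, smul_dotProduct]

theorem form_add_right (H : Matrix (Fin n) (Fin n) ℂ) (x y y' : Fin n → ℂ) :
    form H x (y + y') = form H x y + form H x y' := by
  simp [form, dotProduct_add]

theorem form_smul_right (H : Matrix (Fin n) (Fin n) ℂ) (c : ℂ) (x y : Fin n → ℂ) :
    form H x (c • y) = c * form H x y := by
  simp [form, dotProduct_smul]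

theorem form_zero_left (H : Matrix (Fin n) (Fin n) ℂ) (y : Fin n → ℂ) : form H 0 y = 0 := by
  simp [form]

theorem form_zero_right (H : Matrix (Fin n) (Fin n) ℂ) (x : Fin n → ℂ) : form H x 0 = 0 := by
  simp [form]

variable {H : Matrix (Fin n) (Fin n) ℂ}

/-- the form is nondegenerate -/
theorem form_nondeg (hH : IsUnit H.det) (x : Fin n → ℂ) (h : ∀ y, form H x y = 0) : x = 0 := by
  have h2 : H *ᵥ x = 0 := by
    have h2 := h (H *ᵥ x)
    rw [form] at h2
    exact dotProduct_star_self_eq_zero.1 h2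
  have h3 : H⁻¹ *ᵥ (H *ᵥ x) = 0 := by rw [h2, mulVec_zero]
  rwa [mulVec_mulVec, nonsing_inv_mul _ hH, one_mulVec] at h3

/-- the adjoint is adjoint -/
theorem form_adj (hs : H.IsHermitian) (hH : IsUnit H.det) (M : Matrix (Fin n) (Fin n) ℂ)
    (x y : Fin n → ℂ) : form H (M *ᵥ x) y = form H x (adj H M *ᵥ y) := by
  have e : Hᴴ * (H⁻¹ * Mᴴ * H) = (H * M)ᴴ := by
    rw [hs.eq, ← mul_assoc, ← mul_assoc, mul_nonsing_inv _ hH, one_mul, conjTranspose_mul, hs.eq]
  rw [form, form, adj, mulVec_mulVec, star_mulVec, star_mulVec, ← dotProduct_mulVec,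
    ← dotProduct_mulVec, mulVec_mulVec, e]

/-- generalised eigenspaces of a unitary matrix are orthogonal -/
theorem orth (hs : H.IsHermitian) (hH : IsUnit H.det) (M : Matrix (Fin n) (Fin n) ℂ)
    (hM : adj H M * M = 1) (l m : ℂ) (h : star l * m ≠ 1) :
    ∀ N : ℕ, ∀ k j : ℕ, k + j ≤ N → ∀ x y : Fin n → ℂ,
      ((toLin' M - algebraMap ℂ _ l) ^ k) x = 0 → ((toLin' M - algebraMap ℂ _ m) ^ j) y = 0 →
      form H x y = 0 := by
  intro N
  induction N with
  | zero =>
    intro k j hkj x y hx hy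
    obtain ⟨rfl, rfl⟩ : k = 0 ∧ j = 0 := by omega
    simp only [pow_zero, Module.End.one_apply] at hx
    rw [hx, form_zero_left]
  | succ N ih =>
    intro k j hkj x y hx hy
    rcases k with _ | k
    · simp only [pow_zero, Module.End.one_apply] at hx
      rw [hx, form_zero_left]
    rcases j with _ | j
    · simp only [pow_zero, Module.End.one_apply] at hy
      rw [hy, form_zero_right]
    obtain ⟨x', hx'⟩ : ∃ x', x' = (toLin' M - algebraMap ℂ _ l) x := ⟨_, rfl⟩
    obtain ⟨y', hy'⟩ : ∃ y', y' = (toLin' M - algebraMap ℂ _ m) y := ⟨_, rfl⟩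
    have hx1 : ((toLin' M - algebraMap ℂ _ l) ^ k) x' = 0 := by
      rw [hx', ← Module.End.mul_apply, ← pow_succ, hx]
    have hy1 : ((toLin' M - algebraMap ℂ _ m) ^ j) y' = 0 := by
      rw [hy', ← Module.End.mul_apply, ← pow_succ, hy]
    have e1 : M *ᵥ x = l • x + x' := by
      rw [hx']
      simp [Module.algebraMap_end_apply]
    have e2 : M *ᵥ y = m • y + y' := by
      rw [hy']
      simp [Module.algebraMap_end_apply]
    have e3 : form H (M *ᵥ x) (M *ᵥ y) = form H x y := by
      rw [form_adj hs hH, mulVec_mulVec, hM, one_mulVec]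
    have a1 := ih (k + 1) j (by omega) x y' hx hy1
    have a2 := ih k (j + 1) (by omega) x' y hx1 hy
    have a3 := ih k j (by omega) x' y' hx1 hy1
    rw [e1, e2, form_add_left, form_add_right, form_add_right, form_smul_left, form_smul_left,
      form_smul_right, form_smul_right, a1, a2, a3] at e3
    have : (1 - star l * m) * form H x y = 0 := by
      linear_combination -e3
    rcases mul_eq_zero.1 this with h0 | h0
    · exact absurd (sub_eq_zero.1 h0).symm h
    · exact h0

theorem orth_max (hs : H.IsHermitian) (hH : IsUnit H.det) (M : Matrix (Fin n) (Fin n) ℂ)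
    (hM : adj H M * M = 1) (l m : ℂ) (h : star l * m ≠ 1) (x y : Fin n → ℂ)
    (hx : x ∈ maxGenEigenspace (toLin' M) l) (hy : y ∈ maxGenEigenspace (toLin' M) m) :
    form H x y = 0 := by
  rw [mem_maxGenEigenspace] at hx hy
  obtain ⟨k, hk⟩ := hx
  obtain ⟨j, hj⟩ := hy
  refine orth hs hH M hM l m h (k + j) k j le_rfl x y ?_ ?_
  · simpa [Algebra.smul_def] using hk
  · simpa [Algebra.smul_def] using hj

/-- a vector orthogonal to all generalised eigenspaces is zero -/
theorem zero_of_orth (hH : IsUnit H.det) (f : Module.End ℂ (Fin n → ℂ)) (x : Fin n → ℂ)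
    (h : ∀ m : ℂ, ∀ y ∈ f.maxGenEigenspace m, form H x y = 0) : x = 0 := by
  refine form_nondeg hH x fun y => ?_
  have hy : y ∈ ⨆ m : ℂ, f.maxGenEigenspace m := by
    rw [iSup_maxGenEigenspace_eq_top]
    trivial
  refine Submodule.iSup_induction _ (motive := fun y => form H x y = 0) hy ?_ ?_ ?_
  · exact h
  · exact form_zero_right H x
  · intro a b ha hb
    rw [form_add_right, ha, hb, add_zero]

/-- eigenvalues of unitary matrices commuting with an indecomposable matrix -/
theorem two_eigenvalues (hs : H.IsHermitian) (hH : IsUnit H.det)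
    (X M : Matrix (Fin n) (Fin n) ℂ) (hX : Indecomposable X H) (hM : adj H M * M = 1)
    (h1 : Commute M X) (h2 : Commute M (adj H X)) (l m : ℂ)
    (x y : Fin n → ℂ) (hx0 : x ≠ 0) (hy0 : y ≠ 0)
    (hx : x ∈ maxGenEigenspace (toLin' M) l) (hy : y ∈ maxGenEigenspace (toLin' M) m) :
    m = l ∨ star l * m = 1 := by
  have hl : l ≠ 0 := by
    rintro rfl
    refine hx0 (zero_of_orth hH (toLin' M) x fun m y hy => ?_)
    exact orth_max hs hH M hM 0 m (by simp) x y hx hy
  by_contra hcon
  push Not at hcon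
  obtain ⟨hc1, hc2⟩ := hcon
  obtain ⟨E, hE⟩ : ∃ E, E = maxGenEigenspace (toLin' M) l ⊔
    maxGenEigenspace (toLin' M) (star l)⁻¹ := ⟨_, rfl⟩
  have hsl : star l ≠ 0 := by simpa using hl
  -- a vector orthogonal to `E` and in `E` is zero
  have hnd : Nondegenerate H E := by
    intro z hz horth
    refine zero_of_orth hH (toLin' M) z fun k y hy => ?_
    by_cases hk1 : k = l
    · subst hk1
      exact horth y (hE ▸ Submodule.mem_sup_left hy)
    by_cases hk2 : k = (star l)⁻¹
    · subst hk2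
      exact horth y (hE ▸ Submodule.mem_sup_right hy)
    rw [hE, Submodule.mem_sup] at hz
    obtain ⟨z1, hz1, z2, hz2, rfl⟩ := hz
    rw [form_add_left, orth_max hs hH M hM l k ?_ z1 y hz1 hy,
      orth_max hs hH M hM (star l)⁻¹ k ?_ z2 y hz2 hy, add_zero]
    · intro h
      apply hk1
      rw [star_inv₀, star_star] at h
      field_simp at h
      exact h
    · intro h
      apply hk2
      field_simp
      rw [mul_comm]
      exact h
  have hinv : ∀ Y : Matrix (Fin n) (Fin n) ℂ, Commute M Y → ∀ x ∈ E, Y *ᵥ x ∈ E := by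
    intro Y hY z hz
    have hc : Commute (toLin' M) (toLin' Y) := by
      show toLin' M * toLin' Y = toLin' Y * toLin' M
      rw [Module.End.mul_eq_comp, Module.End.mul_eq_comp, ← toLin'_mul, ← toLin'_mul, hY.eq]
    rw [hE, Submodule.mem_sup] at hz ⊢
    obtain ⟨z1, hz1, z2, hz2, rfl⟩ := hz
    refine ⟨Y *ᵥ z1, ?_, Y *ᵥ z2, ?_, ?_⟩
    · exact mapsTo_maxGenEigenspace_of_comm hc l hz1
    · exact mapsTo_maxGenEigenspace_of_comm hc _ hz2
    · rw [mulVec_add]
  rcases hX E hnd (hinv X h1) (hinv _ h2) with h | h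
  · have : x ∈ E := hE ▸ Submodule.mem_sup_left hx
    rw [h] at this
    exact hx0 ((Submodule.mem_bot ℂ).1 this)
  · apply hy0
    refine form_nondeg hH y fun z => ?_
    have hz : z ∈ E := h ▸ trivial
    rw [hE, Submodule.mem_sup] at hz
    obtain ⟨z1, hz1, z2, hz2, rfl⟩ := hz
    rw [form_add_right, orth_max hs hH M hM m l ?_ y z1 hy hz1,
      orth_max hs hH M hM m (star l)⁻¹ ?_ y z2 hy hz2, add_zero]
    · intro h
      apply hc1
      have h' := congrArg star h
      rw [star_mul', star_star, star_inv₀, star_star, star_one] at h'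
      field_simp at h'
      exact h'
    · intro h
      apply hc2
      have h' := congrArg star h
      rw [star_mul', star_star, star_one] at h'
      rw [mul_comm]
      exact h'

theorem eig_ne_zero (hs : H.IsHermitian) (hH : IsUnit H.det) (M : Matrix (Fin n) (Fin n) ℂ)
    (hM : adj H M * M = 1) (x : Fin n → ℂ) (hx0 : x ≠ 0)
    (hx : x ∈ maxGenEigenspace (toLin' M) 0) : False :=
  hx0 (zero_of_orth hH (toLin' M) x fun m y hy =>
    orth_max hs hH M hM 0 m (by simp) x y hx hy)

theorem adj_mul (hH : IsUnit H.det) (M N : Matrix (Fin n) (Fin n) ℂ) :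
    adj H (M * N) = adj H N * adj H M := by
  rw [adj, adj, adj, conjTranspose_mul]
  have : H * H⁻¹ = 1 := mul_nonsing_inv _ hH
  calc H⁻¹ * (Nᴴ * Mᴴ) * H = H⁻¹ * Nᴴ * (1 : Matrix (Fin n) (Fin n) ℂ) * Mᴴ * H := by
        rw [mul_one]; simp only [mul_assoc]
    _ = _ := by rw [← this]; simp only [mul_assoc]

theorem adj_adj (hs : H.IsHermitian) (hH : IsUnit H.det) (M : Matrix (Fin n) (Fin n) ℂ) :
    adj H (adj H M) = M := by
  have e : (H⁻¹)ᴴ = H⁻¹ := by rw [conjTranspose_nonsing_inv, hs.eq]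
  rw [adj, adj, conjTranspose_mul, conjTranspose_mul, conjTranspose_conjTranspose, e, hs.eq]
  have h1 : H⁻¹ * H = 1 := nonsing_inv_mul _ hH
  calc H⁻¹ * (H * (M * H⁻¹)) * H = (H⁻¹ * H) * M * (H⁻¹ * H) := by simp only [mul_assoc]
    _ = M := by rw [h1, one_mul, mul_one]

theorem ext_mulVec (M N : Matrix (Fin n) (Fin n) ℂ) (h : ∀ x, M *ᵥ x = N *ᵥ x) : M = N := by
  apply toLin'.injective
  refine LinearMap.ext fun x => ?_
  rw [toLin'_apply, toLin'_apply, h]

theorem anti_pow {R : Type} [Ring R] [Algebra ℂ R] (d v : R) (h : d * v = -(v * d)) (m : ℂ)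
    (k : ℕ) : (v - (-m) • (1 : R)) ^ k * d = (-1) ^ k * (d * (v - m • (1 : R)) ^ k) := by
  have e2 : d * (v - m • (1 : R)) = -((v - (-m) • (1 : R)) * d) := by
    rw [mul_sub, h, mul_smul_comm, mul_one, sub_mul, smul_mul_assoc, one_mul, neg_smul]
    abel
  have e3 : (v - (-m) • (1 : R)) * d = -(d * (v - m • (1 : R))) := by rw [e2, neg_neg]
  induction k with
  | zero => simp
  | succ k ih =>
    have c : (-1 : R) ^ k * -(1 : R) = -(1 : R) * (-1 : R) ^ k := by simp
    rw [pow_succ, mul_assoc, e3, mul_neg, ← mul_assoc, ih, pow_succ (v - m • (1 : R)),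
      pow_succ (-1 : R)]
    simp only [mul_neg, neg_mul, mul_one, mul_assoc]

/-- the main step: two factors agree up to sign -/
theorem main (hs : H.IsHermitian) (hH : IsUnit H.det) (X A B U V : Matrix (Fin n) (Fin n) ℂ)
    (hX : Indecomposable X H) (hA : adj H A = A) (hB : adj H B = B) (hU : adj H U * U = 1)
    (hV : adj H V * V = 1) (hXA : X = U * A) (hUA : U * A = A * U) (hXB : X = V * B)
    (hVB : V * B = B * V) : A = B ∨ A = -B := by
  have hU' : U * adj H U = 1 := mul_eq_one_comm.1 hU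
  have hV' : V * adj H V = 1 := mul_eq_one_comm.1 hV
  -- the unitary factors commute with `X` and its adjoint
  have comm : ∀ A U : Matrix (Fin n) (Fin n) ℂ, adj H A = A → adj H U * U = 1 → U * adj H U = 1 →
      X = U * A → U * A = A * U → Commute U X ∧ Commute U (adj H X) ∧ Commute (adj H U) X ∧
        Commute (adj H U) (adj H X) := by
    intro A U hA hU hU' hXA hUA
    have c1 : U * X = X * U := by
      rw [hXA]
      nth_rewrite 1 [hUA]
      rw [mul_assoc]
    have e1 : adj H X = A * adj H U := by rw [hXA, adj_mul hH, hA]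
    have e2 : adj H X = adj H U * A := by rw [hXA, hUA, adj_mul hH, hA]
    have c2 : U * adj H X = adj H X * U := by
      nth_rewrite 1 [e2]
      rw [e1, ← mul_assoc, hU', one_mul, mul_assoc, hU, mul_one]
    have inv : ∀ Y : Matrix (Fin n) (Fin n) ℂ, U * Y = Y * U → adj H U * Y = Y * adj H U := by
      intro Y hY
      calc adj H U * Y = adj H U * (Y * U) * adj H U := by
            rw [mul_assoc, mul_assoc, hU', mul_one]
        _ = Y * adj H U := by rw [← hY, ← mul_assoc, hU, one_mul]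
    exact ⟨c1, c2, inv _ c1, inv _ c2⟩
  obtain ⟨u1, u2, u3, u4⟩ := comm A U hA hU hU' hXA hUA
  obtain ⟨v1, v2, v3, v4⟩ := comm B V hB hV hV' hXB hVB
  obtain ⟨W, hW⟩ : ∃ W, W = adj H U * V := ⟨_, rfl⟩
  obtain ⟨Wi, hWi⟩ : ∃ Wi, Wi = adj H V * U := ⟨_, rfl⟩
  have hWW : Wi * W = 1 := by
    rw [hW, hWi, mul_assoc, ← mul_assoc U, hU', one_mul, hV]
  have hWW' : W * Wi = 1 := mul_eq_one_comm.1 hWW
  have adjW : adj H W = Wi := by rw [hW, adj_mul hH, adj_adj hs hH, hWi]
  have cWX : Commute W X := hW ▸ u3.mul_left v1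
  have cWX' : Commute W (adj H X) := hW ▸ u4.mul_left v2
  have cWiX : Commute Wi X := hWi ▸ v3.mul_left u1
  have eA : A = adj H U * X := by rw [hXA, ← mul_assoc, hU, one_mul]
  have eB : B = adj H V * X := by rw [hXB, ← mul_assoc, hV, one_mul]
  have hWB : W * B = A := by
    rw [hW, mul_assoc, ← hXB, eA]
  have h1 : W * B = B * Wi := by
    have := congrArg (adj H) hWB
    rw [adj_mul hH, hB, adjW, hA] at this
    rw [this, hWB]
  have h2 : B * W = Wi * B := by
    calc B * W = Wi * (W * B) * W := by rw [← mul_assoc, hWW, one_mul]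
      _ = Wi * B := by rw [h1, ← mul_assoc, mul_assoc, hWW, mul_one]
  have h3 : W * (V * B) = V * (Wi * B) := by
    rw [← hXB, cWX.eq, hXB, mul_assoc, h2]
  have h4 : Wi * (V * B) = V * (W * B) := by
    rw [← hXB, cWiX.eq, hXB, mul_assoc, h1]
  obtain ⟨D, hD⟩ : ∃ D, D = (W - Wi) * B := ⟨_, rfl⟩
  have hDV : D * V = -(V * D) := by
    rw [hD, mul_assoc, ← hVB, sub_mul, h3, h4, sub_mul, mul_sub, neg_sub]
  -- the Sylvester equation has only the zero solution
  have hD0 : D = 0 := by
    have key : ∀ m : ℂ, ∀ x ∈ maxGenEigenspace (toLin' V) m, D *ᵥ x = 0 := by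
      intro m x hx
      by_contra hne
      have hx0 : x ≠ 0 := by
        rintro rfl
        exact hne (mulVec_zero D)
      have hDx : D *ᵥ x ∈ maxGenEigenspace (toLin' V) (-m) := by
        rw [mem_maxGenEigenspace] at hx ⊢
        obtain ⟨k, hk⟩ := hx
        refine ⟨k, ?_⟩
        have e1 : toLin' D * toLin' V = -(toLin' V * toLin' D) := by
          rw [Module.End.mul_eq_comp, Module.End.mul_eq_comp, ← toLin'_mul, ← toLin'_mul, hDV,
            map_neg]
        have e3 := anti_pow (R := Module.End ℂ (Fin n → ℂ)) (toLin' D) (toLin' V) e1 m k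
        have e4 := congrArg (fun f : Module.End ℂ (Fin n → ℂ) => f x) e3
        simp only [Module.End.mul_apply] at e4
        rw [hk, map_zero, map_zero] at e4
        exact e4
      have hm : m ≠ 0 := by
        rintro rfl
        exact eig_ne_zero hs hH V hV x hx0 hx
      rcases two_eigenvalues hs hH X V hX hV v1 v2 m (-m) x (D *ᵥ x) hx0 hne hx hDx with h | h
      · apply hm
        have : (2 : ℂ) * m = 0 := by linear_combination -h
        exact (mul_eq_zero.1 this).resolve_left two_ne_zero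
      · have h5 : (Complex.normSq m : ℂ) = -1 := by
          rw [Complex.normSq_eq_conj_mul_self]
          have : star m * m = -1 := by linear_combination -h
          exact this
        have h6 : Complex.normSq m = -1 := by exact_mod_cast h5
        have := Complex.normSq_nonneg m
        linarith
    have key2 : ∀ x, D *ᵥ x = 0 := by
      intro x
      have hx : x ∈ ⨆ m : ℂ, maxGenEigenspace (toLin' V) m := by
        rw [iSup_maxGenEigenspace_eq_top]
        trivial
      refine Submodule.iSup_induction _ (motive := fun x => D *ᵥ x = 0) hx key ?_ ?_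
      · exact mulVec_zero D
      · intro a b ha hb
        rw [mulVec_add, ha, hb, add_zero]
    refine ext_mulVec _ _ fun x => ?_
    rw [key2, zero_mulVec]
  have hWWB : W * B = Wi * B := by
    rw [hD, sub_mul] at hD0
    exact sub_eq_zero.1 hD0
  have hW2 : ∀ x, W *ᵥ (W *ᵥ (B *ᵥ x)) = B *ᵥ x := by
    intro x
    rw [mulVec_mulVec, mulVec_mulVec, mul_assoc, hWWB, ← mul_assoc, hWW', one_mul]
  have mem : ∀ (c : ℂ) (y : Fin n → ℂ), W *ᵥ y = c • y → y ∈ maxGenEigenspace (toLin' W) c := by
    intro c y hy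
    rw [mem_maxGenEigenspace]
    refine ⟨1, ?_⟩
    rw [pow_one, LinearMap.sub_apply, toLin'_apply, hy]
    simp
  by_cases c1 : ∀ x, W *ᵥ (B *ᵥ x) = B *ᵥ x
  · left
    rw [← hWB]
    refine ext_mulVec _ _ fun x => ?_
    rw [← mulVec_mulVec, c1]
  by_cases c2 : ∀ x, W *ᵥ (B *ᵥ x) = -(B *ᵥ x)
  · right
    rw [← hWB]
    refine ext_mulVec _ _ fun x => ?_
    rw [← mulVec_mulVec, c2, neg_mulVec]
  exfalso
  push Not at c1 c2
  obtain ⟨x1, hx1⟩ := c1
  obtain ⟨x2, hx2⟩ := c2
  have hWu : adj H W * W = 1 := by rw [adjW, hWW]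
  have m1 : B *ᵥ x1 - W *ᵥ (B *ᵥ x1) ∈ maxGenEigenspace (toLin' W) (-1) := by
    apply mem
    rw [mulVec_sub, hW2, neg_smul, one_smul, neg_sub]
  have m2 : B *ᵥ x2 + W *ᵥ (B *ᵥ x2) ∈ maxGenEigenspace (toLin' W) 1 := by
    apply mem
    rw [mulVec_add, hW2, one_smul, add_comm]
  have n2 : B *ᵥ x2 + W *ᵥ (B *ᵥ x2) ≠ 0 := fun h => hx2 (eq_neg_of_add_eq_zero_right h)
  have n1 : B *ᵥ x1 - W *ᵥ (B *ᵥ x1) ≠ 0 := fun h => hx1 (sub_eq_zero.1 h).symm
  rcases two_eigenvalues hs hH X W hX hWu cWX cWX' 1 (-1) _ _ n2 n1 m2 m1 with h | h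
  · norm_num at h
  · rw [star_one, one_mul] at h
    norm_num at h

/-- **The selfadjoint factor of a commuting `H`-polar decomposition of a nonzero `H`-indecomposable
matrix is unique up to sign.** -/
theorem result (n : ℕ) (H X : Matrix (Fin n) (Fin n) ℂ) (hs : H.IsHermitian)
    (hH : IsUnit H.det) (hX0 : X ≠ 0) (hX : Indecomposable X H) (hne : (Factors X H).Nonempty) :
    (Factors X H).ncard = 2 := by
  obtain ⟨A, hA⟩ := hne
  have hA0 : A ≠ 0 := by
    rintro rfl
    obtain ⟨-, U, -, h, -⟩ := hA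
    exact hX0 (by rw [h, mul_zero])
  have hset : Factors X H = {A, -A} := by
    ext B
    simp only [Set.mem_insert_iff, Set.mem_singleton_iff]
    constructor
    · intro hB
      obtain ⟨a1, U, a2, a3, a4⟩ := hA
      obtain ⟨b1, V, b2, b3, b4⟩ := hB
      exact main hs hH X B A V U hX b1 a1 b2 a2 b3 b4 a3 a4
    · rintro (rfl | rfl)
      · exact hA
      · obtain ⟨a1, U, a2, a3, a4⟩ := hA
        refine ⟨?_, -U, ?_, ?_, ?_⟩
        · rw [adj] at a1 ⊢
          rw [conjTranspose_neg, mul_neg, neg_mul, a1]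
        · rw [adj] at a2 ⊢
          rw [conjTranspose_neg, mul_neg, mul_neg, neg_mul, neg_mul, neg_neg, a2]
        · rw [neg_mul, mul_neg, neg_neg, a3]
        · rw [neg_mul, mul_neg, neg_mul, mul_neg, a4]
  rw [hset, Set.ncard_pair]
  intro h
  apply hA0
  have h2 : (2 : ℂ) • A = 0 := by
    rw [two_smul]
    nth_rewrite 1 [h]
    exact neg_add_cancel A
  exact (smul_eq_zero.1 h2).resolve_left two_ne_zero

end Pool.Agent.Results.MP_d7084b_al.UniqueUpToSign
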